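import Mathlib
import Pool.Agent.R74.HankelFin

set_option autoImplicit false

namespace Pool.Agent.Results.MP_be5c27_co.HankelIndicator

open PowerSeries

/-- The Prouhet-Thue-Morse series over the field with two elements: the coefficient of `X ^ n` is
the sum of the binary digits of `n` modulo `2`. -/
noncomputable def F : PowerSeries (ZMod 2) :=
  PowerSeries.mk fun n => ((Nat.digits 2 n).sum : ZMod 2)

/-- The Hankel determinant of a sequence of integers: the determinant over the integers of the
`n` by `n` matrix whose `(i, j)` entry is `c (p + i + j - 1)` for `1 ≤ i, j ≤ n`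
(here `i = a + 1` and `j = b + 1` with `a, b` in `Fin n`). -/
def hankelDet (c : ℕ → ℤ) (p n : ℕ) : ℤ :=
  Matrix.det (Matrix.of fun a b : Fin n => c (p + ((a : ℕ) + 1) + ((b : ℕ) + 1) - 1))

open Classical in
/-- The compositional inverse `G` of the Prouhet-Thue-Morse series exists and is unique, and the
diagonal Hankel determinants `H_{n,n}` of its coefficients (read as the integers `0` and `1`) are
the indicator of the Moser-de Bruijn set. -/
theorem result : ∃ G : PowerSeries (ZMod 2),
    constantCoeff G = 0 ∧ F.subst G = X ∧ G.subst F = X ∧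
    (∀ G' : PowerSeries (ZMod 2), constantCoeff G' = 0 → F.subst G' = X → G' = G) ∧
    ∀ n : ℕ, 1 ≤ n → hankelDet (fun m => ((coeff m G).val : ℤ)) n n =
      if ∃ s : Finset ℕ, n = ∑ k ∈ s, 4 ^ k then 1 else 0 := by
  have h0 : constantCoeff F = 0 := Pool.Agent.R74.Hankel.FF_const
  have h1 : IsUnit (coeff 1 F) := by
    have : coeff 1 F = 1 := Pool.Agent.R74.Hankel.FF_coeff_one
    rw [this]; exact isUnit_one
  refine ⟨F.substInvOfIsUnit h1, constantCoeff_substInvOfIsUnit F h1,
    subst_substInvOfIsUnit_right F h0 h1, subst_substInvOfIsUnit_left F h0 h1, ?_, ?_⟩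
  · intro G' hG' h'
    have e1 := Pool.Agent.R74.Hankel.inv_eq G' hG' h'
    have e2 := Pool.Agent.R74.Hankel.inv_eq (F.substInvOfIsUnit h1)
      (constantCoeff_substInvOfIsUnit F h1) (subst_substInvOfIsUnit_right F h0 h1)
    rw [← e2] at e1
    have e3 := add_left_cancel e1
    have e4 := mul_left_cancel₀ X_ne_zero e3
    exact add_left_cancel e4
  · intro n hn
    have e := Pool.Agent.R74.Hankel.hankel_eq (F.substInvOfIsUnit h1)
      (constantCoeff_substInvOfIsUnit F h1) (subst_substInvOfIsUnit_right F h0 h1) n hn
    rw [Pool.Agent.R74.Hankel.ff_ite] at e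
    exact e

end Pool.Agent.Results.MP_be5c27_co.HankelIndicator
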